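import Pool.Agent.Helper677.FreeRTFN

/-!
# Words defining group laws on all free nilpotent groups

Full answer to Q1 of MP_c4ae4c_al: the words with property (N) are `ab` and `ba`.
-/

set_option autoImplicit false

namespace Pool.Agent.Results.MP_c4ae4c_al.AllWords

open MonoidAlgebra

/-- The value `w(x, y)` in a group `G` of a word `w` in the free group on two letters. -/
def ev {G : Type*} [Group G] (w : FreeGroup (Fin 2)) (x y : G) : G :=
  FreeGroup.lift ![x, y] w

/-- The letter `a`. -/
def la : FreeGroup (Fin 2) := FreeGroup.of 0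

/-- The letter `b`. -/
def lb : FreeGroup (Fin 2) := FreeGroup.of 1

/-- The lower central series `γ 1 = G`, `γ (k + 1) = [γ k, G]` (we put `γ 0 = G`). -/
def gam (G : Type*) [Group G] (k : ℕ) : Subgroup G :=
  (⊤ : Subgroup G).lowerCentralSeries (k - 1)

instance (G : Type*) [Group G] (k : ℕ) : (gam G k).Normal := by
  unfold gam; infer_instance

/-- The operation `op` on `Q` is associative and has an identity element and inverses. -/
def IsGroupOp {Q : Type*} (op : Q → Q → Q) : Prop :=
  (∀ x y z, op (op x y) z = op x (op y z)) ∧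
    ∃ e, (∀ x, op e x = x ∧ op x e = x) ∧ ∀ x, ∃ y, op x y = e ∧ op y x = e

/-- Property (N): for all `n ≥ 2` and `k ≥ 1` the operation `w(x, y)` makes the free nilpotent group
`F_n / γ_k(F_n)` into a group. -/
def PropN (w : FreeGroup (Fin 2)) : Prop :=
  ∀ n ≥ 2, ∀ k ≥ 1, IsGroupOp (fun x y : FreeGroup (Fin n) ⧸ gam (FreeGroup (Fin n)) k => ev w x y)

/-! ## Evaluation -/

section

variable {G H : Type*} [Group G] [Group H]

@[simp] lemma ev_one (x y : G) : ev 1 x y = 1 := by simp [ev]
@[simp] lemma ev_la (x y : G) : ev la x y = x := by simp [ev, la]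
@[simp] lemma ev_lb (x y : G) : ev lb x y = y := by simp [ev, lb]
@[simp] lemma ev_mul (v w : FreeGroup (Fin 2)) (x y : G) : ev (v * w) x y = ev v x y * ev w x y := by
  simp [ev]
@[simp] lemma ev_inv (w : FreeGroup (Fin 2)) (x y : G) : ev w⁻¹ x y = (ev w x y)⁻¹ := by
  simp [ev]

lemma map_ev (f : G →* H) (w : FreeGroup (Fin 2)) (x y : G) : f (ev w x y) = ev w (f x) (f y) := by
  have h : f.comp (FreeGroup.lift ![x, y]) = FreeGroup.lift ![f x, f y] := by
    apply FreeGroup.ext_hom
    intro i
    fin_cases i <;> simp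
  exact DFunLike.congr_fun h w

lemma ev_id (w : FreeGroup (Fin 2)) : ev w la lb = w := by
  have h : (FreeGroup.lift ![la, lb] : FreeGroup (Fin 2) →* FreeGroup (Fin 2)) =
      MonoidHom.id _ := by
    apply FreeGroup.ext_hom
    intro i
    fin_cases i <;> simp [la, lb]
  exact DFunLike.congr_fun h w

/-- Induction principle for words. -/
lemma word_ind {P : FreeGroup (Fin 2) → Prop} (h1 : P 1) (ha : P la) (hb : P lb)
    (hinv : ∀ w, P w → P w⁻¹) (hmul : ∀ v w, P v → P w → P (v * w)) (w : FreeGroup (Fin 2)) :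
    P w := by
  have hof : ∀ i : Fin 2, P (FreeGroup.of i) := by
    intro i
    fin_cases i
    · exact ha
    · exact hb
  induction w using FreeGroup.induction_on with
  | C1 => exact h1
  | of i => exact hof i
  | inv_of i h => exact hinv _ h
  | mul v w hv hw => exact hmul v w hv hw

end

/-! ## Affine maps over the group ring -/

section

variable {G : Type*} [Group G]

/-- The affine bijection `x ↦ g x + r` of the group ring. -/
noncomputable def T (g : G) (r : MonoidAlgebra ℤ G) : Equiv.Perm (MonoidAlgebra ℤ G) where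
  toFun x := single g 1 * x + r
  invFun x := single g⁻¹ 1 * (x - r)
  left_inv x := by
    simp [← mul_assoc, single_mul_single, ← one_def]
  right_inv x := by
    simp [← mul_assoc, single_mul_single, ← one_def]

lemma T_apply (g : G) (r x : MonoidAlgebra ℤ G) : T g r x = single g 1 * x + r := rfl

lemma T_mul (g h : G) (r s : MonoidAlgebra ℤ G) : T g r * T h s = T (g * h) (r + single g 1 * s) := by
  ext1 x
  rw [Equiv.Perm.mul_apply, T_apply, T_apply, T_apply, mul_add, ← mul_assoc, single_mul_single,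
    mul_one, add_assoc, add_comm (single g 1 * s) r]

lemma T_one : (1 : Equiv.Perm (MonoidAlgebra ℤ G)) = T 1 0 := by
  ext1 x
  rw [T_apply, ← one_def, one_mul, add_zero]
  rfl

lemma T_inv (g : G) (r : MonoidAlgebra ℤ G) : (T g r)⁻¹ = T g⁻¹ (- (single g⁻¹ 1 * r)) := by
  rw [inv_eq_iff_mul_eq_one, T_mul, T_one]
  simp [← mul_assoc, single_mul_single, ← one_def]

lemma T_inj {g h : G} {r s : MonoidAlgebra ℤ G} (e : T g r = T h s) : r = s := by
  have := DFunLike.congr_fun e 0
  simpa [T_apply] using this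

end

/-- The Fox derivative with respect to the first letter. -/
noncomputable def D1 (w : FreeGroup (Fin 2)) : MonoidAlgebra ℤ (FreeGroup (Fin 2)) :=
  ev w (T la 1) (T lb 0) 0

/-- The Fox derivative with respect to the second letter. -/
noncomputable def D2 (w : FreeGroup (Fin 2)) : MonoidAlgebra ℤ (FreeGroup (Fin 2)) :=
  ev w (T la 0) (T lb 1) 0

lemma ev_T1 (w : FreeGroup (Fin 2)) : ev w (T la 1) (T lb 0) = T w (D1 w) := by
  have key : ∃ r, ev w (T la 1) (T lb 0) = T w r := by
    induction w using word_ind with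
    | h1 => exact ⟨0, by rw [ev_one, T_one]⟩
    | ha => exact ⟨1, by rw [ev_la]⟩
    | hb => exact ⟨0, by rw [ev_lb]⟩
    | hinv w ih => obtain ⟨r, hr⟩ := ih; exact ⟨_, by rw [ev_inv, hr, T_inv]⟩
    | hmul v w ihv ihw =>
      obtain ⟨r, hr⟩ := ihv
      obtain ⟨s, hs⟩ := ihw
      exact ⟨_, by rw [ev_mul, hr, hs, T_mul]⟩
  obtain ⟨r, hr⟩ := key
  unfold D1
  rw [hr, T_apply, mul_zero, zero_add]

lemma ev_T2 (w : FreeGroup (Fin 2)) : ev w (T la 0) (T lb 1) = T w (D2 w) := by
  have key : ∃ r, ev w (T la 0) (T lb 1) = T w r := by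
    induction w using word_ind with
    | h1 => exact ⟨0, by rw [ev_one, T_one]⟩
    | ha => exact ⟨0, by rw [ev_la]⟩
    | hb => exact ⟨1, by rw [ev_lb]⟩
    | hinv w ih => obtain ⟨r, hr⟩ := ih; exact ⟨_, by rw [ev_inv, hr, T_inv]⟩
    | hmul v w ihv ihw =>
      obtain ⟨r, hr⟩ := ihv
      obtain ⟨s, hs⟩ := ihw
      exact ⟨_, by rw [ev_mul, hr, hs, T_mul]⟩
  obtain ⟨r, hr⟩ := key
  unfold D2
  rw [hr, T_apply, mul_zero, zero_add]

lemma D1_mul (v w : FreeGroup (Fin 2)) : D1 (v * w) = D1 v + single v 1 * D1 w := by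
  have h := ev_T1 (v * w)
  rw [ev_mul, ev_T1, ev_T1, T_mul] at h
  exact (T_inj h).symm

lemma D2_mul (v w : FreeGroup (Fin 2)) : D2 (v * w) = D2 v + single v 1 * D2 w := by
  have h := ev_T2 (v * w)
  rw [ev_mul, ev_T2, ev_T2, T_mul] at h
  exact (T_inj h).symm

lemma D1_inv (w : FreeGroup (Fin 2)) : D1 w⁻¹ = - (single w⁻¹ 1 * D1 w) := by
  have h := ev_T1 w⁻¹
  rw [ev_inv, ev_T1, T_inv] at h
  exact (T_inj h).symm

lemma D2_inv (w : FreeGroup (Fin 2)) : D2 w⁻¹ = - (single w⁻¹ 1 * D2 w) := by
  have h := ev_T2 w⁻¹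
  rw [ev_inv, ev_T2, T_inv] at h
  exact (T_inj h).symm

lemma D1_one : D1 1 = 0 := by
  have h := ev_T1 1
  rw [ev_one, T_one] at h
  exact (T_inj h).symm

lemma D2_one : D2 1 = 0 := by
  have h := ev_T2 1
  rw [ev_one, T_one] at h
  exact (T_inj h).symm

lemma D1_la : D1 la = 1 := by
  have h := ev_T1 la
  rw [ev_la] at h
  exact (T_inj h).symm

lemma D1_lb : D1 lb = 0 := by
  have h := ev_T1 lb
  rw [ev_lb] at h
  exact (T_inj h).symm

lemma D2_la : D2 la = 0 := by
  have h := ev_T2 la
  rw [ev_la] at h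
  exact (T_inj h).symm

lemma D2_lb : D2 lb = 1 := by
  have h := ev_T2 lb
  rw [ev_lb] at h
  exact (T_inj h).symm

section

variable {G : Type*} [Group G]

/-- The ring homomorphism of the substitution `a ↦ x`, `b ↦ y`. -/
noncomputable def sub (x y : G) : MonoidAlgebra ℤ (FreeGroup (Fin 2)) →+* MonoidAlgebra ℤ G :=
  MonoidAlgebra.mapDomainRingHom ℤ (FreeGroup.lift ![x, y])

lemma sub_single (x y : G) (w : FreeGroup (Fin 2)) (n : ℤ) :
    sub x y (single w n) = single (ev w x y) n := by
  simp [sub, ev]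

/-- The chain rule. -/
lemma ev_T (x y : G) (r s : MonoidAlgebra ℤ G) (w : FreeGroup (Fin 2)) :
    ev w (T x r) (T y s) = T (ev w x y) (sub x y (D1 w) * r + sub x y (D2 w) * s) := by
  induction w using word_ind with
  | h1 => simp [D1_one, D2_one, T_one]
  | ha => simp [D1_la, D2_la]
  | hb => simp [D1_lb, D2_lb]
  | hinv w ih =>
    rw [ev_inv, ih, T_inv, ev_inv, D1_inv, D2_inv, map_neg, map_neg, map_mul, map_mul, sub_single,
      ev_inv]
    congr 1
    noncomm_ring
  | hmul v w ihv ihw =>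
    rw [ev_mul, ihv, ihw, T_mul, ev_mul, D1_mul, D2_mul, map_add, map_add, map_mul, map_mul,
      sub_single]
    congr 1
    noncomm_ring

end

/-- The fundamental formula. -/
lemma fundamental (w : FreeGroup (Fin 2)) :
    single w 1 - 1 = D1 w * (single la 1 - 1) + D2 w * (single lb 1 - 1) := by
  induction w using word_ind with
  | h1 => simp [D1_one, D2_one, one_def]
  | ha => simp [D1_la, D2_la]
  | hb => simp [D1_lb, D2_lb]
  | hinv w ih =>
    rw [D1_inv, D2_inv]
    have : - (single w⁻¹ 1 * D1 w) * (single la 1 - 1) + -(single w⁻¹ 1 * D2 w) * (single lb 1 - 1) =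
      - (single w⁻¹ 1 * (D1 w * (single la 1 - 1) + D2 w * (single lb 1 - 1))) := by noncomm_ring
    rw [this, ← ih, mul_sub, single_mul_single]
    simp [one_def]
  | hmul v w ihv ihw =>
    rw [D1_mul, D2_mul]
    have : (D1 v + single v 1 * D1 w) * (single la 1 - 1) +
        (D2 v + single v 1 * D2 w) * (single lb 1 - 1) =
      (D1 v * (single la 1 - 1) + D2 v * (single lb 1 - 1)) +
      (single v 1 * (D1 w * (single la 1 - 1) + D2 w * (single lb 1 - 1))) := by noncomm_ring
    rw [this, ← ihv, ← ihw, mul_sub, single_mul_single]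
    simp

/-! ## Units of the group ring of the infinite cyclic group -/

/-- The infinite cyclic group. -/
abbrev C : Type := Multiplicative ℤ

/-- Its generator. -/
def t : C := Multiplicative.ofAdd 1

lemma unit_single (p q : MonoidAlgebra ℤ C) (h : q * p = 1) : ∃ k c, p = single k c := by
  classical
  have hp : p ≠ 0 := by rintro rfl; simp at h
  have hq : q ≠ 0 := by rintro rfl; simp at h
  by_cases hB : p.coeff.support.card ≤ 1
  · obtain ⟨k, c, h1⟩ := Finsupp.card_support_le_one'.1 hB
    exact ⟨k, c, MonoidAlgebra.ext h1⟩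
  exfalso
  have hA : 1 ≤ q.coeff.support.card :=
    Finset.card_pos.2 (Finsupp.support_nonempty_iff.2 (by simpa using hq))
  have hAB : 1 < q.coeff.support.card * p.coeff.support.card := by nlinarith
  obtain ⟨x, hx, y, hy, hxy, ux, uy⟩ := TwoUniqueProds.uniqueMul_of_one_lt_card hAB
  rw [Finset.mem_product] at hx hy
  have h1 : ∀ z : C × C, z.1 ∈ q.coeff.support → z.2 ∈ p.coeff.support →
      UniqueMul q.coeff.support p.coeff.support z.1 z.2 → z.1 * z.2 = 1 := by
    intro z hz1 hz2 hu
    have h2 := MonoidAlgebra.coeff_mul_mul_of_uniqueMul hu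
    rw [h] at h2
    by_contra hne
    rw [one_def, coeff_single, Finsupp.single_apply, if_neg (Ne.symm hne)] at h2
    rw [Finsupp.mem_support_iff] at hz1 hz2
    exact mul_ne_zero hz1 hz2 h2.symm
  have h3 := ux hy.1 hy.2 ((h1 y hy.1 hy.2 uy).trans (h1 x hx.1 hx.2 ux).symm)
  exact hxy (Prod.ext h3.1.symm h3.2.symm)

section

variable {G H : Type*} [Group G] [Group H]

lemma map_sub (g : G →* H) (x y : G) (f : MonoidAlgebra ℤ (FreeGroup (Fin 2))) :
    MonoidAlgebra.mapDomainRingHom ℤ g (sub x y f) = sub (g x) (g y) f := by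
  induction f using MonoidAlgebra.induction_linear with
  | zero => simp
  | add f g hf hg => simp only [map_add, hf, hg]
  | single w n => rw [sub_single, sub_single]; simp [map_ev]

lemma sub_sub (x y : G) (u v : FreeGroup (Fin 2)) (f : MonoidAlgebra ℤ (FreeGroup (Fin 2))) :
    sub x y (sub u v f) = sub (ev u x y) (ev v x y) f :=
  map_sub (FreeGroup.lift ![x, y]) u v f

lemma sub_id (f : MonoidAlgebra ℤ (FreeGroup (Fin 2))) : sub la lb f = f := by
  induction f using MonoidAlgebra.induction_linear with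
  | zero => simp
  | add f g hf hg => simp only [map_add, hf, hg]
  | single w n => rw [sub_single, ev_id]

end

/-- `w` satisfies the associative law in all groups, and `w(1, x) = w(x, 1) = x`. -/
structure Law (w : FreeGroup (Fin 2)) : Prop where
  assoc : ∀ (G : Type) [Group G] (x y z : G), ev w (ev w x y) z = ev w x (ev w y z)
  left : ∀ (G : Type) [Group G] (x : G), ev w 1 x = x
  right : ∀ (G : Type) [Group G] (x : G), ev w x 1 = x

lemma ev_comm {A : Type*} [CommGroup A] (w : FreeGroup (Fin 2)) (x y : A) :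
    ev w x y = ev w x 1 * ev w 1 y := by
  induction w using word_ind with
  | h1 => simp
  | ha => simp
  | hb => simp
  | hinv w ih => rw [ev_inv, ev_inv, ev_inv, ih, mul_inv]
  | hmul v w ihv ihw => rw [ev_mul, ev_mul, ev_mul, ihv, ihw, mul_mul_mul_comm]

lemma key_id {w : FreeGroup (Fin 2)} (h : Law w) :
    D1 w * sub 1 la (D1 w) = sub 1 w (D1 w) := by
  have h1 := h.assoc (Equiv.Perm (MonoidAlgebra ℤ (FreeGroup (Fin 2)))) (T 1 1) (T la 0) (T lb 0)
  rw [ev_T 1 la, ev_T la lb, h.left, ev_T, ev_T, ev_id, sub_id] at h1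
  have h2 := T_inj h1
  simpa using h2

lemma aug {w : FreeGroup (Fin 2)} (h : Law w) : sub (1 : C) 1 (D1 w) = 1 := by
  have h1 := ev_T (1 : C) 1 1 0 w
  rw [← T_one, h.right] at h1
  have h2 := T_inj h1
  simpa using h2.symm

lemma D1_eq {w : FreeGroup (Fin 2)} (h : Law w) : ∃ n : ℤ, D1 w = single (w ^ n * la ^ (-n)) 1 := by
  have h1 := congrArg (sub t t⁻¹) (key_id h)
  have h0 : ev w t t⁻¹ = 1 := by
    rw [ev_comm, h.left, h.right, mul_inv_cancel]
  rw [map_mul, sub_sub, sub_sub, ev_one, ev_la, h0, aug h] at h1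
  obtain ⟨k, c, hp⟩ := unit_single _ _ h1
  have hc : c = 1 := by
    have h2 := aug h
    have h3 := map_sub (1 : C →* C) 1 t (D1 w)
    rw [hp, map_one, MonoidHom.one_apply, h2] at h3
    simpa [one_def] using h3
  subst hc
  have h4 : ∀ x : FreeGroup (Fin 2), sub 1 x (D1 w) = single (x ^ (Multiplicative.toAdd k)) 1 := by
    intro x
    have h5 := map_sub (zpowersHom _ x) 1 t (D1 w)
    rw [hp, map_one] at h5
    simpa [t] using h5.symm
  refine ⟨Multiplicative.toAdd k, ?_⟩
  have h6 := key_id h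
  rw [h4, h4] at h6
  have h7 := congrArg (fun z => z * single (la ^ (-Multiplicative.toAdd k)) (1 : ℤ)) h6
  simp only [mul_assoc, single_mul_single] at h7
  simpa [← one_def] using h7

/-- The word of the opposite operation. -/
def sw (w : FreeGroup (Fin 2)) : FreeGroup (Fin 2) := ev w lb la

lemma ev_sw {G : Type*} [Group G] (w : FreeGroup (Fin 2)) (x y : G) : ev (sw w) x y = ev w y x := by
  have h := map_ev (FreeGroup.lift ![x, y]) w lb la
  have h1 : (FreeGroup.lift ![x, y]) lb = y := by simp [lb]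
  have h2 : (FreeGroup.lift ![x, y]) la = x := by simp [la]
  rw [h1, h2] at h
  exact h

lemma Law.sw {w : FreeGroup (Fin 2)} (h : Law w) : Law (sw w) where
  assoc G _ x y z := by rw [ev_sw, ev_sw, ev_sw, ev_sw, h.assoc]
  left G _ x := by rw [ev_sw, h.right]
  right G _ x := by rw [ev_sw, h.left]

lemma D2_eq {w : FreeGroup (Fin 2)} (h : Law w) : ∃ n : ℤ, D2 w = single (w ^ n * lb ^ (-n)) 1 := by
  obtain ⟨n, hn⟩ := D1_eq h.sw
  refine ⟨n, ?_⟩
  have h1 := ev_T1 (sw w)
  rw [ev_sw, ev_T] at h1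
  have h2 := T_inj h1
  rw [mul_zero, zero_add, mul_one] at h2
  have h3 := congrArg (sub lb la) h2
  rw [sub_sub, ev_lb, ev_la, sub_id, hn, sub_single] at h3
  rw [h3]
  congr 1
  rw [ev_mul]
  have h4 : ∀ (v : FreeGroup (Fin 2)) (m : ℤ), ev (v ^ m) lb la = (ev v lb la) ^ m := by
    intro v m
    exact map_zpow (FreeGroup.lift ![lb, la]) v m
  rw [h4, h4, ev_sw, ev_id, ev_la]

lemma main {w : FreeGroup (Fin 2)} (h : Law w) : w = la * lb ∨ w = lb * la := by
  classical
  obtain ⟨k, hk⟩ := D1_eq h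
  obtain ⟨l, hl⟩ := D2_eq h
  have hf := fundamental w
  rw [hk, hl, mul_sub, mul_sub, mul_one, mul_one, single_mul_single, single_mul_single, mul_one]
    at hf
  have hf2 : single w (1 : ℤ) + single (w ^ k * la ^ (-k)) 1 + single (w ^ l * lb ^ (-l)) 1 =
      1 + single (w ^ k * la ^ (-k) * la) 1 + single (w ^ l * lb ^ (-l) * lb) 1 := by
    rw [sub_eq_iff_eq_add] at hf
    rw [hf]
    abel
  have ht : t ≠ 1 := by
    intro h
    have := congrArg Multiplicative.toAdd h
    simp [t] at this
  have htz : ∀ n : ℤ, t ^ n = 1 → n = 0 := by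
    intro n h
    have := congrArg Multiplicative.toAdd h
    simpa [t] using this
  have hzp : ∀ (v : FreeGroup (Fin 2)) (m : ℤ) (x y : C), ev (v ^ m) x y = (ev v x y) ^ m := by
    intro v m x y
    exact map_zpow (FreeGroup.lift ![x, y]) v m
  have hw1 : w ≠ 1 := by
    rintro rfl
    apply ht
    rw [← h.left C t, ev_one]
  have hk1 : w ^ k * la ^ (-k) = 1 → k = 0 := by
    intro h1
    have h2 := congrArg (fun v => ev v (1 : C) t) h1
    simp only [ev_mul, hzp, h.left, ev_la, one_zpow, mul_one, ev_one] at h2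
    exact htz k h2
  have hl1 : w ^ l * lb ^ (-l) = 1 → l = 0 := by
    intro h1
    have h2 := congrArg (fun v => ev v t (1 : C)) h1
    simp only [ev_mul, hzp, h.right, ev_lb, one_zpow, mul_one, ev_one] at h2
    exact htz l h2
  have hne : ∀ u : FreeGroup (Fin 2), u * la ≠ u := by
    intro u h1
    have h2 : la = 1 := by simpa using h1
    have h3 := congrArg (fun v => ev v t (1 : C)) h2
    simp only [ev_la, ev_one] at h3
    exact ht h3
  have hne' : ∀ u : FreeGroup (Fin 2), u * lb ≠ u := by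
    intro u h1
    have h2 : lb = 1 := by simpa using h1
    have h3 := congrArg (fun v => ev v (1 : C) t) h2
    simp only [ev_lb, ev_one] at h3
    exact ht h3
  -- a final step common to both cases
  have fin : ∀ (u x y : FreeGroup (Fin 2)), (∀ u : FreeGroup (Fin 2), u * y ≠ u) →
      single w (1 : ℤ) + single u 1 = single x 1 + single (u * y) 1 → w = x * y := by
    intro u x y hy he
    have h1 := congrArg (fun f => f.coeff u) he
    simp only [coeff_add, Finsupp.add_apply, coeff_single, Finsupp.single_apply, if_neg (hy u), add_zero,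
      if_true] at h1
    have h2 : x = u := by
      by_contra hx
      rw [if_neg hx] at h1
      split_ifs at h1 <;> simp at h1
    subst h2
    rw [add_comm (single x (1 : ℤ)) (single (x * y) 1)] at he
    have h3 := add_right_cancel he
    exact (single_left_inj one_ne_zero).1 h3
  have h1 := congrArg (fun f => f.coeff 1) hf2
  simp only [coeff_add, Finsupp.add_apply, coeff_single, Finsupp.single_apply, coeff_one_one, if_neg hw1] at h1
  by_cases e1 : w ^ k * la ^ (-k) = 1
  · left
    have hk0 := hk1 e1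
    subst hk0
    refine fin (w ^ l * lb ^ (-l)) la lb hne' ?_
    simp only [zpow_zero, neg_zero, mul_one, one_mul] at hf2
    rw [← one_def] at hf2
    have h4 : (1 : MonoidAlgebra ℤ (FreeGroup (Fin 2))) + (single w 1 +
      single (w ^ l * lb ^ (-l)) 1) = 1 + (single la 1 + single (w ^ l * lb ^ (-l) * lb) 1) := by
      rw [← add_assoc, ← add_assoc, ← hf2]
      abel
    exact add_left_cancel h4
  · rw [if_neg e1] at h1
    by_cases e2 : w ^ l * lb ^ (-l) = 1
    · right
      have hl0 := hl1 e2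
      subst hl0
      refine fin (w ^ k * la ^ (-k)) lb la hne ?_
      simp only [zpow_zero, neg_zero, mul_one, one_mul] at hf2
      rw [← one_def] at hf2
      have h4 : (1 : MonoidAlgebra ℤ (FreeGroup (Fin 2))) + (single w 1 +
        single (w ^ k * la ^ (-k)) 1) = 1 + (single lb 1 + single (w ^ k * la ^ (-k) * la) 1) := by
        have h5 : (1 : MonoidAlgebra ℤ (FreeGroup (Fin 2))) + (single lb 1 +
          single (w ^ k * la ^ (-k) * la) 1) =
          1 + single (w ^ k * la ^ (-k) * la) 1 + single lb 1 := by abel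
        rw [h5, ← hf2]
        abel
      exact add_left_cancel h4
    · exfalso
      rw [if_neg e2] at h1
      split_ifs at h1 <;> simp at h1

/-! ## From property (N) to the laws -/

open Pool.Agent.Helper677.RTFN in
lemma PropN.law {w : FreeGroup (Fin 2)} (h : PropN w) : Law w := by
  have h3 : ∀ X Y Z : FreeGroup (Fin 3), ev w (ev w X Y) Z = ev w X (ev w Y Z) := by
    intro X Y Z
    by_contra hne
    have h1 : ev w (ev w X Y) Z * (ev w X (ev w Y Z))⁻¹ ≠ 1 := by
      rwa [Ne, mul_inv_eq_one]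
    obtain ⟨m, φ, hφ⟩ := free_rtfn _ h1
    obtain ⟨n, hn⟩ := Subgroup.nilpotent_iff_lowerCentralSeries.1 (UT_nilpotent m)
    apply hφ
    have h4 := (h 3 (by norm_num) (n + 1) (by omega)).1
      (QuotientGroup.mk' (gam (FreeGroup (Fin 3)) (n + 1)) X)
      (QuotientGroup.mk' (gam (FreeGroup (Fin 3)) (n + 1)) Y)
      (QuotientGroup.mk' (gam (FreeGroup (Fin 3)) (n + 1)) Z)
    simp only [← map_ev] at h4
    have h5 : ev w (ev w X Y) Z * (ev w X (ev w Y Z))⁻¹ ∈ gam (FreeGroup (Fin 3)) (n + 1) := by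
      rw [← QuotientGroup.ker_mk' (gam (FreeGroup (Fin 3)) (n + 1)), MonoidHom.mem_ker, map_mul,
        map_inv, h4, mul_inv_cancel]
    have h6 := Subgroup.mem_map_of_mem φ h5
    unfold gam at h6
    rw [Nat.add_sub_cancel, Subgroup.map_lowerCentralSeries] at h6
    have h7 : φ (ev w (ev w X Y) Z * (ev w X (ev w Y Z))⁻¹) ∈
        (⊤ : Subgroup (UT m)).lowerCentralSeries n :=
      Subgroup.lowerCentralSeries_mono n le_top h6
    rw [hn] at h7
    exact h7
  have h2 : ev w t 1 = t ∧ ev w 1 t = t := by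
    let χ : FreeGroup (Fin 2) →* C := FreeGroup.lift fun _ => t
    have hχ : gam (FreeGroup (Fin 2)) 2 ≤ χ.ker := by
      change ⁅(⊤ : Subgroup (FreeGroup (Fin 2))), ⊤⁆ ≤ χ.ker
      rw [Subgroup.commutator_le]
      intro x _ y _
      rw [MonoidHom.mem_ker, map_commutatorElement, commutatorElement_eq_one_iff_mul_comm, mul_comm]
    let ψ : FreeGroup (Fin 2) ⧸ gam (FreeGroup (Fin 2)) 2 →* C := QuotientGroup.lift _ χ hχ
    obtain ⟨_, e, he, _⟩ := h 2 le_rfl 2 (by norm_num)
    have hla : ψ (QuotientGroup.mk' _ la) = t := by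
      simp [ψ, χ, la]
    have a1 := congrArg ψ (he (QuotientGroup.mk' _ la)).1
    have a2 := congrArg ψ (he (QuotientGroup.mk' _ la)).2
    have a3 := congrArg ψ (he 1).1
    have a4 := congrArg ψ (he 1).2
    simp only [map_ev, hla, map_one] at a1 a2 a3 a4
    rw [ev_comm, a3, one_mul] at a1
    rw [ev_comm, a4, mul_one] at a2
    exact ⟨a2, a1⟩
  refine ⟨?_, ?_, ?_⟩
  · intro G _ x y z
    have h5 := congrArg (FreeGroup.lift ![x, y, z]) (h3 (FreeGroup.of 0) (FreeGroup.of 1)
      (FreeGroup.of 2))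
    simp only [map_ev, FreeGroup.lift_apply_of] at h5
    simpa using h5
  · intro G _ x
    have h5 := congrArg (zpowersHom G x) h2.2
    rw [map_ev, map_one] at h5
    simpa [t] using h5
  · intro G _ x
    have h5 := congrArg (zpowersHom G x) h2.1
    rw [map_ev, map_one] at h5
    simpa [t] using h5

/-- **Theorem.** The words with property (N) are exactly `ab` and `ba`. -/
theorem result (w : FreeGroup (Fin 2)) : PropN w ↔ w = la * lb ∨ w = lb * la := by
  constructor
  · intro h
    exact main h.law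
  · rintro (rfl | rfl) n _ k _
    · refine ⟨fun x y z => ?_, 1, fun x => ⟨?_, ?_⟩, fun x => ⟨x⁻¹, ?_, ?_⟩⟩ <;>
        simp [mul_assoc]
    · refine ⟨fun x y z => ?_, 1, fun x => ⟨?_, ?_⟩, fun x => ⟨x⁻¹, ?_, ?_⟩⟩ <;>
        simp [mul_assoc]

end Pool.Agent.Results.MP_c4ae4c_al.AllWords
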